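import Pool.Agent.H52.ND2.End

/-!
# MP_5ee2d0_ag: the Euler characteristics on the last model, from the Snapper polynomial
-/

namespace Pool.Agent.H52.ND2

/-- nonnegative rational numbers have a common denominator -/
theorem common_den {n : ℕ} (p : Fin n → ℚ) (hp0 : ∀ i, 0 ≤ p i) :
    ∃ (d : ℕ) (s : Fin n → ℕ), 0 < d ∧ ∀ i, (p i : ℝ) = s i / d := by
  classical
  refine ⟨∏ i, (p i).den, fun i => (p i).num.toNat * ∏ k ∈ Finset.univ.erase i, (p k).den,
    Finset.prod_pos fun i _ => (p i).den_pos, fun i => ?_⟩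
  have h1 : (∏ k, (p k).den : ℕ) = (p i).den * ∏ k ∈ Finset.univ.erase i, (p k).den :=
    (Finset.mul_prod_erase _ _ (Finset.mem_univ i)).symm
  rw [h1]
  have h2 : ((p i).num.toNat : ℤ) = (p i).num := Int.toNat_of_nonneg (Rat.num_nonneg.2 (hp0 i))
  have h3 : ((p i).num.toNat : ℝ) = ((p i).num : ℝ) := by exact_mod_cast h2
  have h4 : (∏ k ∈ Finset.univ.erase i, ((p k).den : ℝ)) ≠ 0 :=
    Finset.prod_ne_zero_iff.2 fun k _ => by exact_mod_cast (p k).den_nz
  have h5 : ((p i).den : ℝ) ≠ 0 := by exact_mod_cast (p i).den_nz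
  push_cast
  rw [h3, mul_div_mul_right _ _ h4]
  exact_mod_cast (Rat.num_div_den (p i)).symm

/-- The numbers `x_E` are the coefficients of the pull back of `∑ x_j F_j`, where the `x_j` are rational
multiples of one number, and `χ` is a polynomial, not zero at the origin. Then the numbers
`χ(m, ⌊m x_i⌋)` are not zero for infinitely many `m`. -/
theorem chi_ne_zero {D J : Type} [Fintype J] (x : D → ℝ) (F : J → D) (o : J → D → ℝ)
    (hx0 : ∀ E, 0 ≤ x E) (heq : ∀ E, x E = -∑ j, x (F j) * o j E)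
    (hrat : ∀ j E, ∃ q : ℚ, o j E = q) (hq : ∃ (c : ℝ) (q : J → ℚ), 0 < c ∧ ∀ j, x (F j) = c * q j)
    {n : ℕ} (E : Fin n → D) (chi : ℕ → (Fin n → ℤ) → ℤ)
    (hQ : ∃ Q : MvPolynomial (Option (Fin n)) ℝ, ∀ (m : ℕ) (k : Fin n → ℤ), (chi m k : ℝ) =
      MvPolynomial.eval (fun o => Option.elim o (m : ℝ) fun i => (k i : ℝ)) Q)
    (h0 : chi 0 0 ≠ 0) (N : ℕ) : ∃ m : ℕ, N ≤ m ∧ chi m (fun i => ⌊(m : ℝ) * x (E i)⌋) ≠ 0 := by
  obtain ⟨c, q, hc, hq⟩ := hq
  obtain ⟨Q, hQ⟩ := hQ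
  choose ρ hρ using hrat
  have hp : ∀ i, x (E i) = c * ((-∑ j, q j * ρ j (E i) : ℚ) : ℝ) := by
    intro i
    rw [heq]
    push_cast
    rw [mul_neg, Finset.mul_sum]
    congr 1
    refine Finset.sum_congr rfl fun j _ => ?_
    rw [hq, hρ]
    ring
  obtain ⟨d, s, hd, hs⟩ := common_den (fun i => -∑ j, q j * ρ j (E i)) fun i => by
    have h1 := hx0 (E i)
    rw [hp] at h1
    have h2 := nonneg_of_mul_nonneg_right h1 hc
    exact_mod_cast h2
  obtain ⟨m, hm, hne⟩ := exists_floor_ne_zero Q (by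
    intro h
    apply h0
    have h1 := hQ 0 0
    rw [show (fun o : Option (Fin n) => Option.elim o ((0 : ℕ) : ℝ)
      fun i => (((0 : Fin n → ℤ) i : ℤ) : ℝ)) = 0 from ?_, h] at h1
    · exact_mod_cast h1
    · funext o
      cases o <;> simp) s (c / d) N
  refine ⟨m, hm, fun h => hne ?_⟩
  have h1 := hQ m fun i => ⌊(m : ℝ) * x (E i)⌋
  rw [h, Int.cast_zero] at h1
  have h2 : ∀ i, x (E i) = c / d * s i := by
    intro i
    rw [hp, hs]
    ring
  simp only [h2] at h1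
  exact h1.symm

/-- `χ(m L)` is a polynomial, not zero at `0`, so it is not zero for infinitely many `m`. -/
theorem chi_ne_zero' (chi : ℕ → ℤ) (hQ : ∃ Q : Polynomial ℝ, ∀ m : ℕ, (chi m : ℝ) = Q.eval (m : ℝ))
    (h0 : chi 0 ≠ 0) (N : ℕ) : ∃ m : ℕ, N ≤ m ∧ chi m ≠ 0 := by
  obtain ⟨Q, hQ⟩ := hQ
  have hQ0 : Q ≠ 0 := by
    rintro rfl
    apply h0
    have h1 := hQ 0
    rw [Polynomial.eval_zero] at h1
    exact_mod_cast h1
  by_contra hcon
  push Not at hcon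
  have hinf : Set.Infinite (Set.Ici N) := Set.Ici_infinite N
  refine (hinf.image (f := fun m : ℕ => (m : ℝ)) Nat.cast_injective.injOn)
    ((Q.roots.toFinset.finite_toSet).subset ?_)
  rintro _ ⟨m, hm, rfl⟩
  rw [Finset.mem_coe, Multiset.mem_toFinset, Polynomial.mem_roots hQ0, Polynomial.IsRoot, ← hQ,
    hcon m hm, Int.cast_zero]

end Pool.Agent.H52.ND2
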