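import Pool.Agent.H87.FB.End

/-!
# MP_5ee2d0_ag: polynomials at multiples of a real number, rounded down

The Euler characteristic of `K + m L - ∑ k_i E_i` is a polynomial in `m` and the `k_i` (Snapper). Its value
at `0` is `χ(K)`. If it is not zero then the values at `k_i = ⌊m β s_i⌋` are not zero for infinitely
many `m`.
-/

namespace Pool.Agent.H52.ND2

open Filter Topology Polynomial

private theorem injOn_fract {β : ℝ} (hβ : Irrational β) :
    Function.Injective fun m : ℕ => Int.fract ((m : ℝ) * β) := by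
  intro a b hab
  by_contra hne
  have h1 : Int.fract ((a : ℝ) * β) = Int.fract ((b : ℝ) * β) := hab
  rw [Int.fract_eq_fract] at h1
  obtain ⟨z, hz⟩ := h1
  have h2 : ((a : ℝ) - b) * β = z := by linarith
  have h3 : ((a : ℝ) - b) ≠ 0 := by
    intro h
    exact hne (by exact_mod_cast sub_eq_zero.1 h)
  apply hβ
  refine ⟨(z : ℚ) / ((a : ℚ) - b), ?_⟩
  push_cast
  rw [div_eq_iff h3]
  linarith

/-- a nonzero polynomial in two variables does not vanish at `(m, {m β})` for large `m` -/
theorem two_var (G : ℝ[X][X]) (hG : G ≠ 0) {β : ℝ} (hβ : Irrational β) {δ : ℝ} (hδ : 0 < δ)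
    (N : ℕ) :
    ∃ m : ℕ, N ≤ m ∧ Int.fract ((m : ℝ) * β) < δ ∧
      (G.eval (C (m : ℝ))).eval (Int.fract ((m : ℝ) * β)) ≠ 0 := by
  classical
  by_contra hcon
  push Not at hcon
  -- a sequence of small fractional parts
  have hseq : ∀ n : ℕ, ∃ k : ℕ, n ≤ k ∧ 0 < k ∧ Int.fract (k * β) < 1 / ((n : ℝ) + 1) := fun n =>
    Pool.Agent.H87.FB.exists_fract_lt β _ (by positivity) n
  choose k hk hk0 hkf using hseq
  have hlim : Tendsto (fun n => Int.fract ((k n : ℝ) * β)) atTop (𝓝 0) :=
    squeeze_zero (fun n => Int.fract_nonneg _) (fun n => (hkf n).le)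
      tendsto_one_div_add_atTop_nhds_zero_nat
  have hkt : Tendsto k atTop atTop := tendsto_atTop_mono hk tendsto_id
  -- the leading coefficient vanishes at small fractional parts
  have hlead : ∀ m : ℕ, N ≤ m → Int.fract ((m : ℝ) * β) < min δ 1 →
      G.leadingCoeff.eval (Int.fract ((m : ℝ) * β)) = 0 := by
    intro m hm hsmall
    set x := Int.fract ((m : ℝ) * β) with hx
    have hx0 : 0 ≤ x := by rw [hx]; exact Int.fract_nonneg _
    have hxl : Tendsto (fun n => x + Int.fract ((k n : ℝ) * β)) atTop (𝓝 x) := by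
      have := hlim.const_add x
      rwa [add_zero] at this
    have h1 : ∀ᶠ n in atTop, Int.fract (((m + k n : ℕ) : ℝ) * β) =
        x + Int.fract ((k n : ℝ) * β) ∧ Int.fract (((m + k n : ℕ) : ℝ) * β) < δ := by
      filter_upwards [hxl.eventually_lt_const hsmall] with n hn
      have hf := Int.fract_nonneg ((k n : ℝ) * β)
      have e1 : Int.fract (((m + k n : ℕ) : ℝ) * β) = x + Int.fract ((k n : ℝ) * β) := by
        have e2 : ((m + k n : ℕ) : ℝ) * β = (x + Int.fract ((k n : ℝ) * β)) +
            ((⌊(m : ℝ) * β⌋ + ⌊(k n : ℝ) * β⌋ : ℤ) : ℝ) := by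
          have a1 := Int.fract_add_floor ((m : ℝ) * β)
          have a2 := Int.fract_add_floor ((k n : ℝ) * β)
          rw [← hx] at a1
          push_cast
          linarith
        rw [e2, Int.fract_add_intCast]
        exact Int.fract_eq_self.2 ⟨by linarith, lt_of_lt_of_le hn (min_le_right _ _)⟩
      exact ⟨e1, by rw [e1]; exact lt_of_lt_of_le hn (min_le_left _ _)⟩
    have hmt : Tendsto (fun n => ((m + k n : ℕ) : ℝ)) atTop atTop :=
      tendsto_natCast_atTop_atTop.comp (tendsto_atTop_mono (fun n => Nat.le_add_left (k n) m) hkt)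
    -- the limit of the quotient by the leading power
    have h2 : Tendsto (fun n => ∑ i ∈ Finset.range (G.natDegree + 1),
        (G.coeff i).eval (x + Int.fract ((k n : ℝ) * β)) *
          (((m + k n : ℕ) : ℝ) ^ i / ((m + k n : ℕ) : ℝ) ^ G.natDegree)) atTop
        (𝓝 (∑ i ∈ Finset.range (G.natDegree + 1),
          (G.coeff i).eval x * if i = G.natDegree then 1 else 0)) := by
      refine tendsto_finsetSum _ fun i hi => ?_
      refine Tendsto.mul (((G.coeff i).continuous.tendsto x).comp hxl) ?_
      by_cases h : i = G.natDegree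
      · rw [if_pos h, h]
        refine tendsto_const_nhds.congr' ?_
        filter_upwards [hmt.eventually_gt_atTop 0] with n hn
        rw [div_self (pow_pos hn _).ne']
      · rw [if_neg h]
        have hlt : i < G.natDegree := by
          have := Finset.mem_range.1 hi
          omega
        exact (tendsto_pow_div_pow_atTop_zero hlt).comp hmt
    have h3 : ∑ i ∈ Finset.range (G.natDegree + 1),
        (G.coeff i).eval x * (if i = G.natDegree then 1 else 0) = G.leadingCoeff.eval x := by
      rw [Finset.sum_eq_single G.natDegree]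
      · rw [if_pos rfl, mul_one, Polynomial.leadingCoeff]
      · intro i _ h
        rw [if_neg h, mul_zero]
      · intro h
        exact absurd (Finset.mem_range.2 (Nat.lt_succ_self _)) h
    rw [h3] at h2
    refine tendsto_nhds_unique h2 (tendsto_const_nhds.congr' ?_)
    filter_upwards [h1, hmt.eventually_gt_atTop 0] with n hn hpos
    have h4 := hcon (m + k n) (by omega) hn.2
    rw [hn.1, Polynomial.eval_eq_sum_range (p := G), Polynomial.eval_finsetSum] at h4
    have h5 : ∀ i, (G.coeff i).eval (x + Int.fract ((k n : ℝ) * β)) *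
        (((m + k n : ℕ) : ℝ) ^ i / ((m + k n : ℕ) : ℝ) ^ G.natDegree) =
        (G.coeff i * C ((m + k n : ℕ) : ℝ) ^ i).eval (x + Int.fract ((k n : ℝ) * β)) /
          ((m + k n : ℕ) : ℝ) ^ G.natDegree := by
      intro i
      rw [Polynomial.eval_mul, Polynomial.eval_pow, Polynomial.eval_C, mul_div_assoc]
    rw [Finset.sum_congr rfl fun i _ => h5 i, ← Finset.sum_div, h4, zero_div]
  -- infinitely many roots
  have hc : G.leadingCoeff ≠ 0 := Polynomial.leadingCoeff_ne_zero.2 hG
  have hinf : Set.Infinite {m : ℕ | N ≤ m ∧ Int.fract ((m : ℝ) * β) < min δ 1} := by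
    rw [Set.infinite_iff_exists_gt]
    intro a
    obtain ⟨m, hm, -, hf⟩ := Pool.Agent.H87.FB.exists_fract_lt β (min δ 1)
      (lt_min hδ one_pos) (a + N + 1)
    exact ⟨m, ⟨by omega, hf⟩, by omega⟩
  have himg := hinf.image (f := fun m : ℕ => Int.fract ((m : ℝ) * β)) (injOn_fract hβ).injOn
  refine himg ((G.leadingCoeff.roots.toFinset.finite_toSet).subset ?_)
  rintro _ ⟨m, ⟨hm, hf⟩, rfl⟩
  rw [Finset.mem_coe, Multiset.mem_toFinset, Polynomial.mem_roots hc]
  exact hlead m hm hf

private theorem aux_eval {ι : Type} (Q : MvPolynomial (Option ι) ℝ) (s : ι → ℕ) (β t x : ℝ) :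
    ((MvPolynomial.aeval (fun o : Option ι => Option.elim o (X : ℝ[X][X]) fun i =>
      C (C (s i : ℝ)) * (C (C β) * X - C X)) Q).eval (C t)).eval x =
      MvPolynomial.eval (fun o : Option ι => Option.elim o t fun i => (s i : ℝ) * (β * t - x)) Q := by
  induction Q using MvPolynomial.induction_on with
  | C a => simp [Polynomial.algebraMap_apply]
  | add p q hp hq => rw [map_add, map_add, Polynomial.eval_add, Polynomial.eval_add, hp, hq]
  | mul_X p o hp =>
    rw [map_mul, map_mul, Polynomial.eval_mul, Polynomial.eval_mul, hp, MvPolynomial.aeval_X,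
      MvPolynomial.eval_X]
    cases o with
    | none => simp
    | some i => simp

private theorem aux_eval' {ι : Type} (Q : MvPolynomial (Option ι) ℝ) (v : Option ι → ℝ) (k : ℝ) :
    (MvPolynomial.aeval (fun o : Option ι => (C (v o) * X : ℝ[X])) Q).eval k =
      MvPolynomial.eval (fun o : Option ι => v o * k) Q := by
  induction Q using MvPolynomial.induction_on with
  | C a => simp
  | add p q hp hq => rw [map_add, map_add, Polynomial.eval_add, hp, hq]
  | mul_X p o hp =>
    rw [map_mul, map_mul, Polynomial.eval_mul, hp, MvPolynomial.aeval_X, MvPolynomial.eval_X]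
    simp

/-- Let `Q` be a polynomial in `m` and the `k_i`, not zero at the origin. For every real `β` and all
natural numbers `s_i` the number `Q(m, ⌊m β s_i⌋)` is not zero for infinitely many `m`. -/
theorem exists_floor_ne_zero {ι : Type} [Fintype ι] (Q : MvPolynomial (Option ι) ℝ)
    (h0 : MvPolynomial.eval 0 Q ≠ 0) (s : ι → ℕ) (β : ℝ) (N : ℕ) :
    ∃ m : ℕ, N ≤ m ∧ MvPolynomial.eval
      (fun o : Option ι => Option.elim o (m : ℝ) fun i => (⌊(m : ℝ) * (β * s i)⌋ : ℝ)) Q ≠ 0 := by
  classical
  by_cases hβ : Irrational β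
  · -- irrational
    obtain ⟨K, hK⟩ : ∃ K : ℕ, ∀ j, s j ≤ K := ⟨∑ j, s j, fun j =>
      Finset.single_le_sum (f := s) (fun _ _ => Nat.zero_le _) (Finset.mem_univ j)⟩
    have hG : (MvPolynomial.aeval (fun o : Option ι => Option.elim o (X : ℝ[X][X]) fun i =>
        C (C (s i : ℝ)) * (C (C β) * X - C X)) Q) ≠ 0 := by
      intro h
      have h1 := aux_eval Q s β 0 0
      rw [h] at h1
      apply h0
      rw [Polynomial.eval_zero, Polynomial.eval_zero] at h1
      rw [show (0 : Option ι → ℝ) = fun o : Option ι => Option.elim o (0 : ℝ) fun i =>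
        (s i : ℝ) * (β * 0 - 0) from ?_]
      · exact h1.symm
      · funext o
        cases o <;> simp
    obtain ⟨m, hm, hf, hne⟩ := two_var _ hG hβ (δ := 1 / ((K : ℝ) + 1)) (by positivity) N
    refine ⟨m, hm, ?_⟩
    rw [aux_eval] at hne
    have e : (fun o : Option ι => Option.elim o (m : ℝ) fun i => (⌊(m : ℝ) * (β * s i)⌋ : ℝ)) =
        fun o : Option ι => Option.elim o (m : ℝ) fun i =>
          (s i : ℝ) * (β * m - Int.fract ((m : ℝ) * β)) := by
      funext o
      cases o with
      | none => rfl
      | some i =>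
        simp only [Option.elim]
        have hx0 := Int.fract_nonneg ((m : ℝ) * β)
        have hs : (s i : ℝ) ≤ K := by exact_mod_cast hK i
        have hK0 : (0 : ℝ) ≤ K := Nat.cast_nonneg K
        rw [lt_div_iff₀ (by positivity)] at hf
        have hfl : ⌊(m : ℝ) * (β * s i)⌋ = ⌊(m : ℝ) * β⌋ * s i := by
          rw [Int.floor_eq_iff]
          push_cast
          have a1 := Int.fract_add_floor ((m : ℝ) * β)
          have a2 : (m : ℝ) * (β * s i) = (Int.fract ((m : ℝ) * β) + ⌊(m : ℝ) * β⌋) * s i := by
            rw [a1]; ring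
          rw [a2]
          constructor <;> nlinarith [Nat.cast_nonneg (α := ℝ) (s i)]
        rw [hfl]
        push_cast
        have a1 := Int.fract_add_floor ((m : ℝ) * β)
        have a3 : (⌊(m : ℝ) * β⌋ : ℝ) = β * m - Int.fract ((m : ℝ) * β) := by linarith
        rw [a3]
        ring
    rw [e]
    exact hne
  · -- rational
    rw [Irrational, not_not] at hβ
    obtain ⟨b, rfl⟩ := hβ
    set v : Option ι → ℝ := fun o => Option.elim o (b.den : ℝ) fun i => (b.num * s i : ℝ) with hv
    set g : ℝ[X] := MvPolynomial.aeval (fun o : Option ι => (C (v o) * X : ℝ[X])) Q with hg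
    have hg0 : g.eval 0 ≠ 0 := by
      rw [hg, aux_eval']
      simpa using h0
    have hgne : g ≠ 0 := by
      intro h
      rw [h] at hg0
      simp at hg0
    have hfin : {k : ℕ | g.eval (k : ℝ) = 0}.Finite := by
      have h1 : (fun k : ℕ => (k : ℝ)) '' {k : ℕ | g.eval (k : ℝ) = 0} ⊆
          (g.roots.toFinset : Set ℝ) := by
        rintro _ ⟨k, hk, rfl⟩
        rw [Finset.mem_coe, Multiset.mem_toFinset, Polynomial.mem_roots hgne]
        exact hk
      exact Set.Finite.of_finite_image ((Finset.finite_toSet _).subset h1)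
        Nat.cast_injective.injOn
    obtain ⟨k, hk, hkN⟩ : ∃ k : ℕ, g.eval (k : ℝ) ≠ 0 ∧ N ≤ k := by
      by_contra hcon
      push Not at hcon
      refine Set.Infinite.not_finite ?_ hfin
      rw [Set.infinite_iff_exists_gt]
      intro a
      refine ⟨a + N + 1, ?_, by omega⟩
      by_contra h
      exact absurd (hcon (a + N + 1) h) (by omega)
    refine ⟨b.den * k, le_trans hkN (Nat.le_mul_of_pos_left _ b.den_pos), ?_⟩
    rw [hg, aux_eval'] at hk
    have e : (fun o : Option ι => Option.elim o ((b.den * k : ℕ) : ℝ) fun i =>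
        (⌊((b.den * k : ℕ) : ℝ) * ((b : ℝ) * s i)⌋ : ℝ)) = fun o : Option ι => v o * (k : ℝ) := by
      funext o
      cases o with
      | none => simp [hv]
      | some i =>
        simp only [Option.elim, hv]
        have hd : (b.den : ℝ) ≠ 0 := by exact_mod_cast b.den_nz
        have hb : (b : ℝ) = b.num / b.den := by
          rw [← Rat.cast_intCast, ← Rat.cast_natCast, ← Rat.cast_div, Rat.num_div_den]
        have e1 : ((b.den * k : ℕ) : ℝ) * ((b : ℝ) * s i) = ((b.num * s i * k : ℤ) : ℝ) := by
          rw [hb]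
          push_cast
          field_simp
        rw [e1, Int.floor_intCast]
        push_cast
        ring
    rw [e]
    exact hk

end Pool.Agent.H52.ND2
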